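import Pool.Agent.MP_2724f6_pr.Main

/-!
For every degree `d ≥ 4` the infimum of `∫ f² dμ` over isotropic, log-concave measures with the
symmetries of the cube and normalized homogeneous `f` tends to zero as `n → ∞`, while the infimum
`m_d(n)` for the cube stays bounded away from zero.
-/

namespace Pool.Agent.Results.MP_2724f6_pr.CubeNotMinimal

open MeasureTheory Pool.Agent.MP_2724f6_pr

/-- For every `d ≥ 4` there is `c > 0` with `m_d(n) ≥ c` for all `n ≥ 1`, while for every `ε > 0`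
and all large `n` there are an isotropic, log-concave, `H_n`-invariant probability measure `μ` on
`ℝⁿ` and a degree-`d` homogeneous polynomial `f` with `coeff_d(f) = 1` and `∫ f² dμ ≤ ε`. -/
theorem result : ∀ d : ℕ, 4 ≤ d → ∃ c : ℝ, 0 < c ∧ (∀ n : ℕ, 1 ≤ n → c ≤ m d n) ∧
    ∀ ε : ℝ, 0 < ε → ∃ N : ℕ, ∀ n : ℕ, N ≤ n →
      ∃ (μ : Measure (Fin n → ℝ)) (f : MvPolynomial (Fin n) ℝ),
        IsProbabilityMeasure μ ∧ LogConcave μ ∧ Isotropic μ ∧ HypInvariant μ ∧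
        f.IsHomogeneous d ∧ coeffNorm f = 1 ∧
        Integrable (fun x => (MvPolynomial.eval x f) ^ 2) μ ∧
        ∫ x, (MvPolynomial.eval x f) ^ 2 ∂μ ≤ ε := by
  intro d hd
  obtain ⟨c, hc, hcm⟩ := m_ge d
  refine ⟨c, hc, hcm, ?_⟩
  intro ε hε
  obtain ⟨k, rfl⟩ : ∃ k, d = k + 4 := ⟨d - 4, by omega⟩
  obtain ⟨C, hC, hcore⟩ := core k
  have h1 : Filter.Tendsto (fun n : ℕ => Real.sqrt n) Filter.atTop Filter.atTop :=
    Real.tendsto_sqrt_atTop.comp tendsto_natCast_atTop_atTop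
  obtain ⟨N, hN⟩ := Filter.eventually_atTop.mp
    (hcore.and ((h1.eventually_ge_atTop (C / ε)).and (h1.eventually_ge_atTop 1)))
  refine ⟨N, fun n hn => ?_⟩
  obtain ⟨⟨μ, f, h2, h3, h4, h5, h6, h7, h8, h9⟩, h10, h11⟩ := hN n hn
  refine ⟨μ, f, h2, h3, h4, h5, h6, h7, h8, h9.trans ?_⟩
  rw [div_le_iff₀ hε] at h10
  rw [div_le_iff₀ (by linarith)]
  linarith

end Pool.Agent.Results.MP_2724f6_pr.CubeNotMinimal
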